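import Mathlib
import Pool.Agent.N759.FV.SmallPt
import Pool.Agent.N759.FV.Grid

/-! The number of small points in a parallelepiped: finiteness and a lower bound. -/

set_option autoImplicit false

open Filter Topology Matrix H715R2

namespace Pool.Agent.Run7.h566.CS

open Pool.Agent.N759.FV

/-- finitely many integer points in a parallelepiped -/
theorem small_finite {d : ℕ} (g : Matrix (Fin d) (Fin d) ℝ) (hg : g.det ≠ 0) (a : Fin d → ℝ)
    (ha : ∀ i, 0 < a i) (x : ℝ) :
    {p : Fin d → ℤ | ∀ i, |a i * (g *ᵥ iR p) i| ≤ Real.exp x}.Finite := by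
  set M : ℝ := ∑ j, ∑ i, |g⁻¹ j i| * (Real.exp x / a i) with hM
  have hnn : ∀ j i, 0 ≤ |g⁻¹ j i| * (Real.exp x / a i) := fun j i =>
    mul_nonneg (abs_nonneg _) (div_nonneg (Real.exp_pos _).le (ha i).le)
  refine Set.Finite.subset (Set.finite_Icc (fun _ : Fin d => -⌈M⌉) (fun _ => ⌈M⌉)) ?_
  intro p hp
  have key : ∀ j, |(p j : ℝ)| ≤ M := by
    intro j
    have h1 : iR p = g⁻¹ *ᵥ (g *ᵥ iR p) := by
      rw [mulVec_mulVec, Matrix.nonsing_inv_mul _ (isUnit_iff_ne_zero.2 hg), one_mulVec]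
    have h2 : (p j : ℝ) = ∑ i, g⁻¹ j i * (g *ᵥ iR p) i := by
      have := congrFun h1 j
      simpa [iR, mulVec, dotProduct] using this
    rw [h2]
    refine (Finset.abs_sum_le_sum_abs _ _).trans ?_
    have h3 : ∑ i, |g⁻¹ j i * (g *ᵥ iR p) i| ≤ ∑ i, |g⁻¹ j i| * (Real.exp x / a i) := by
      refine Finset.sum_le_sum fun i _ => ?_
      rw [abs_mul]
      refine mul_le_mul_of_nonneg_left ?_ (abs_nonneg _)
      rw [le_div_iff₀ (ha i), mul_comm]
      have := hp i
      rwa [abs_mul, abs_of_pos (ha i)] at this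
    refine h3.trans ?_
    exact Finset.single_le_sum (f := fun j => ∑ i, |g⁻¹ j i| * (Real.exp x / a i))
      (fun j _ => Finset.sum_nonneg fun i _ => hnn j i) (Finset.mem_univ j)
  rw [Set.mem_Icc]
  constructor
  · intro j
    have h1 := (abs_le.1 (key j)).1
    have h2 : (-(⌈M⌉ : ℝ)) ≤ (p j : ℝ) := by
      have := Int.le_ceil M
      linarith
    exact_mod_cast h2
  · intro j
    have h1 := (abs_le.1 (key j)).2
    have h2 : (p j : ℝ) ≤ (⌈M⌉ : ℝ) := h1.trans (Int.le_ceil M)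
    exact_mod_cast h2

/-- many small points in every parallelepiped -/
theorem many_small {r : ℕ} (hr : 0 < r) {V ν T : ℝ} (hV : 0 < V) (hν : 0 < ν)
    (hT : ∀ h : Matrix (Fin (r + 1)) (Fin (r + 1)) ℝ, |h.det| = V →
      ∃ m : Fin (r + 1) → ℤ, m ≠ 0 ∧ |FF h (iR m)| < T) :
    ∃ c x₀ : ℝ, 0 < c ∧ 1 ≤ x₀ ∧ ∀ g : Matrix (Fin (r + 1)) (Fin (r + 1)) ℝ, |g.det| = V →
      HasNu g ν → ∀ a : Fin (r + 1) → ℝ, (∀ i, 0 < a i) → ∏ i, a i = 1 → ∀ x : ℝ, x₀ ≤ x →
      ∃ S : Finset (Fin (r + 1) → ℤ), (∀ p ∈ S, p ≠ 0 ∧ |FF g (iR p)| < T ∧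
        ∀ i, |a i * (g *ᵥ iR p) i| ≤ Real.exp x) ∧ c * x ^ r ≤ (S.card : ℝ) := by
  classical
  obtain ⟨N₀, hN₀, H⟩ := small_point (Nat.succ_pos r) hV hν hT
  set N1 : ℝ := max N₀ 1 with hN1
  have hN11 : 1 ≤ N1 := le_max_right _ _
  have hN10 : 0 < N1 := by linarith
  set m0 : ℝ := ν / N1 ^ r with hm0
  have hm00 : 0 < m0 := by positivity
  set B₁ : ℝ := |Real.log N1| + |Real.log m0| with hB₁
  have hB₁0 : 0 ≤ B₁ := by positivity
  set D : ℝ := B₁ + 1 with hD
  have hD0 : 0 < D := by linarith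
  have hrR : (1 : ℝ) ≤ r := by exact_mod_cast hr
  refine ⟨(1 / (2 * D * r)) ^ r, max 1 (2 * Real.log N1), by positivity, le_max_left _ _, ?_⟩
  intro g hgV hnu a ha0 ha1 x hx
  have hx1 : 1 ≤ x := (le_max_left _ _).trans hx
  have hxN : Real.log N1 ≤ x / 2 := by
    have := (le_max_right _ _).trans hx
    linarith
  obtain ⟨K, hK⟩ : ∃ K : ℕ, K = ⌊x / (2 * D * r)⌋₊ := ⟨_, rfl⟩
  have hK1 : (K : ℝ) ≤ x / (2 * D * r) := by
    rw [hK]
    exact Nat.floor_le (by positivity)
  have hK2 : x / (2 * D * r) ≤ (K : ℝ) + 1 := by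
    rw [hK]
    exact (Nat.lt_floor_add_one _).le
  have hDrK : D * r * K ≤ x / 2 := by
    have h1 : D * r * K ≤ D * r * (x / (2 * D * r)) :=
      mul_le_mul_of_nonneg_left hK1 (by positivity)
    have h2 : D * r * (x / (2 * D * r)) = x / 2 := by
      field_simp
    linarith
  set φ : (Fin r → Fin (K + 1)) → Fin (r + 1) → ℝ :=
    fun k => gpos D (fun j => ((k j : ℕ) : ℝ)) with hφ
  have hφsum : ∀ k, ∑ i, φ k i = 0 := fun k => sum_gpos D _
  have hφ1 : ∀ k, ∏ i, Real.exp (φ k i) = 1 := fun k => by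
    rw [← Real.exp_sum, hφsum, Real.exp_zero]
  have hφb : ∀ k i, |φ k i| ≤ D * r * K := by
    intro k i
    refine gpos_abs_le hD0.le hr _ (fun j => ⟨Nat.cast_nonneg _, ?_⟩) i
    exact_mod_cast Nat.lt_succ_iff.1 (k j).2
  have hdet : ∀ k, |(diagonal (fun i => Real.exp (φ k i)) * (diagonal a * g)).det| = V := by
    intro k
    rw [det_mul, det_diagonal, hφ1, one_mul, det_mul, det_diagonal, ha1, one_mul]
    exact hgV
  have hFk : ∀ k p, FF (diagonal (fun i => Real.exp (φ k i)) * (diagonal a * g)) (iR p) =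
      FF g (iR p) := by
    intro k p
    rw [FF_diag_mul, hφ1, one_mul, FF_diag_mul, ha1, one_mul]
  have hnuk : ∀ k, HasNu (diagonal (fun i => Real.exp (φ k i)) * (diagonal a * g)) ν := by
    intro k m hm
    rw [hFk]
    exact hnu m hm
  have hent : ∀ k p i, ((diagonal (fun i => Real.exp (φ k i)) * (diagonal a * g)) *ᵥ iR p) i =
      Real.exp (φ k i) * (a i * (g *ᵥ iR p) i) := by
    intro k p i
    rw [← mulVec_mulVec, mulVec_diagonal, ← mulVec_mulVec, mulVec_diagonal]
  choose p hp0 hpN hpT using fun k => H _ (hdet k) (hnuk k)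
  have hup : ∀ k i, Real.exp (φ k i) * |a i * (g *ᵥ iR (p k)) i| ≤ N1 := by
    intro k i
    have h1 := hpN k i
    rw [hent, abs_mul, Real.abs_exp] at h1
    exact h1.trans (le_max_left _ _)
  have hlow : ∀ k i, m0 ≤ Real.exp (φ k i) * |a i * (g *ᵥ iR (p k)) i| := by
    intro k i
    have h1 : ν ≤ ∏ i, (Real.exp (φ k i) * |a i * (g *ᵥ iR (p k)) i|) := by
      have h2 := hnuk k (p k) (hp0 k)
      rw [FF_eq, Finset.abs_prod] at h2
      refine h2.trans (le_of_eq ?_)
      refine Finset.prod_congr rfl fun i _ => ?_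
      rw [hent, abs_mul, Real.abs_exp]
    rw [← Finset.mul_prod_erase Finset.univ _ (Finset.mem_univ i)] at h1
    have h3 : ∏ i ∈ Finset.univ.erase i, (Real.exp (φ k i) * |a i * (g *ᵥ iR (p k)) i|) ≤
        N1 ^ r := by
      refine (Finset.prod_le_prod (fun j _ => by positivity) (fun j _ => hup k j)).trans
        (le_of_eq ?_)
      rw [Finset.prod_const, Finset.card_erase_of_mem (Finset.mem_univ _), Finset.card_univ,
        Fintype.card_fin, Nat.add_sub_cancel]
    rw [hm0, div_le_iff₀ (by positivity)]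
    exact h1.trans (mul_le_mul_of_nonneg_left h3 (by positivity))
  have hinj : Function.Injective p := by
    intro k k' hkk
    have hclose : ∀ k k', p k = p k' → ∀ i, φ k i - φ k' i ≤ B₁ := by
      intro k k' hkk i
      have h1 := hup k i
      have h2 := hlow k' i
      rw [← hkk] at h2
      set y := |a i * (g *ᵥ iR (p k)) i| with hy
      have hy0 : 0 < y := by
        rcases (abs_nonneg (a i * (g *ᵥ iR (p k)) i)).lt_or_eq with h | h
        · exact h
        · exfalso
          rw [hy, ← h, mul_zero] at h2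
          linarith
      have h3 : Real.exp (φ k i - φ k' i) ≤ N1 / m0 := by
        rw [Real.exp_sub, div_le_div_iff₀ (Real.exp_pos _) hm00]
        have h4 : Real.exp (φ k i) * m0 ≤ Real.exp (φ k i) * (Real.exp (φ k' i) * y) :=
          mul_le_mul_of_nonneg_left h2 (Real.exp_pos _).le
        have h5 : Real.exp (φ k i) * (Real.exp (φ k' i) * y) =
            (Real.exp (φ k i) * y) * Real.exp (φ k' i) := by ring
        have h6 : (Real.exp (φ k i) * y) * Real.exp (φ k' i) ≤ N1 * Real.exp (φ k' i) :=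
          mul_le_mul_of_nonneg_right h1 (Real.exp_pos _).le
        linarith
      have h7 := Real.log_le_log (Real.exp_pos _) h3
      rw [Real.log_exp, Real.log_div hN10.ne' hm00.ne'] at h7
      have h8 := le_abs_self (Real.log N1)
      have h9 := neg_abs_le (Real.log m0)
      linarith
    funext j
    have h1 := hclose k k' hkk j.castSucc
    have h2 := hclose k' k hkk.symm j.castSucc
    simp only [hφ, gpos, Fin.snoc_castSucc] at h1 h2
    have h3 : D * |((k j : ℕ) : ℝ) - ((k' j : ℕ) : ℝ)| ≤ B₁ := by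
      rw [← abs_of_pos hD0, ← abs_mul, abs_le]
      constructor
      · nlinarith
      · nlinarith
    have h4 : |((k j : ℕ) : ℝ) - ((k' j : ℕ) : ℝ)| < 1 := by
      by_contra h5
      push Not at h5
      have : D * 1 ≤ D * |((k j : ℕ) : ℝ) - ((k' j : ℕ) : ℝ)| :=
        mul_le_mul_of_nonneg_left h5 hD0.le
      linarith
    have h5 : |(((k j : ℕ) : ℤ) - ((k' j : ℕ) : ℤ) : ℤ)| < 1 := by
      have : ((|(((k j : ℕ) : ℤ) - ((k' j : ℕ) : ℤ) : ℤ)| : ℤ) : ℝ) < 1 := by
        push_cast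
        exact h4
      exact_mod_cast this
    have h6 : ((k j : ℕ) : ℤ) - ((k' j : ℕ) : ℤ) = 0 := by
      rw [Int.abs_lt_one_iff] at h5
      exact h5
    apply Fin.ext
    omega
  refine ⟨Finset.univ.image p, ?_, ?_⟩
  · intro q hq
    obtain ⟨k, -, rfl⟩ := Finset.mem_image.1 hq
    refine ⟨hp0 k, ?_, fun i => ?_⟩
    · have := hpT k
      rwa [hFk] at this
    · have h1 := hup k i
      have h2 : |a i * (g *ᵥ iR (p k)) i| ≤ N1 * Real.exp (-(φ k i)) := by
        rw [Real.exp_neg, ← div_eq_mul_inv, le_div_iff₀ (Real.exp_pos _), mul_comm]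
        exact h1
      refine h2.trans ?_
      rw [← Real.exp_log hN10, ← Real.exp_add]
      apply Real.exp_le_exp.2
      have h3 := neg_abs_le (φ k i)
      have h4 := hφb k i
      linarith
  · rw [Finset.card_image_of_injective _ hinj, Finset.card_univ]
    have h1 : (Fintype.card (Fin r → Fin (K + 1)) : ℝ) = ((K : ℝ) + 1) ^ r := by
      rw [Fintype.card_fun, Fintype.card_fin, Fintype.card_fin]
      push_cast
      ring
    rw [h1, ← mul_pow]
    refine pow_le_pow_left₀ (by positivity) ?_ r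
    refine le_trans (le_of_eq ?_) hK2
    ring

end Pool.Agent.Run7.h566.CS
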