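import Mathlib

/-! Counting of tuples, and independence of the values at tuples. -/

set_option autoImplicit false

namespace Pool.Agent.Run7.h566.CS

open Finset

/-- the members of `E` fall over at most `|S| ^ k` initial tuples -/
theorem tuples {α : Type} [DecidableEq α] (S : Finset α) (G : ∀ k : ℕ, (Fin k → α) → Prop)
    (K : ℕ) (B : ℝ) (hB : 0 ≤ B) (h0 : ∀ p : Fin 0 → α, G 0 p)
    (hs : ∀ k < K, ∀ p : Fin k → α, (∀ i, p i ∈ S) → G k p →
      ∀ S' ⊆ S, (∀ q ∈ S', ¬ G (k + 1) (Fin.snoc p q)) → (S'.card : ℝ) ≤ B) :
    ∀ k ≤ K, ∀ E : Finset (Fin k → α), (∀ p ∈ E, (∀ i, p i ∈ S) ∧ ¬ G k p) →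
      (E.card : ℝ) ≤ k * B * (S.card : ℝ) ^ (k - 1) := by
  classical
  intro k
  induction k with
  | zero =>
    intro _ E hE
    have : E = ∅ := by
      rw [Finset.eq_empty_iff_forall_notMem]
      exact fun p hp => (hE p hp).2 (h0 p)
    rw [this]; simp
  | succ k ih =>
    intro hk E hE
    set E1 := E.filter (fun p => ¬ G k (Fin.init p)) with hE1
    set E2 := E.filter (fun p => G k (Fin.init p)) with hE2
    have hcard : E.card = E2.card + E1.card :=
      (Finset.card_filter_add_card_filter_not (s := E) (fun p => G k (Fin.init p))).symm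
    -- tuples whose initial part is bad
    have c1 : (E1.card : ℝ) ≤ k * B * (S.card : ℝ) ^ k := by
      have h1 := ih (by omega) (E1.image Fin.init) (by
        intro u hu
        obtain ⟨p, hp, rfl⟩ := Finset.mem_image.1 hu
        rw [hE1, Finset.mem_filter] at hp
        exact ⟨fun i => (hE p hp.1).1 _, hp.2⟩)
      have h2 : E1.card ≤ ((E1.image Fin.init) ×ˢ S).card := by
        refine Finset.card_le_card_of_injOn (fun p => (Fin.init p, p (Fin.last k))) ?_ ?_
        · intro p hp
          rw [Finset.mem_coe] at hp
          rw [Finset.mem_coe, Finset.mem_product]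
          refine ⟨Finset.mem_image_of_mem _ hp, ?_⟩
          rw [hE1, Finset.mem_filter] at hp
          exact (hE p hp.1).1 _
        · intro p _ q _ hpq
          simp only [Prod.mk.injEq] at hpq
          rw [← Fin.snoc_init_self p, ← Fin.snoc_init_self q, hpq.1, hpq.2]
      rw [Finset.card_product] at h2
      have h3 : (E1.card : ℝ) ≤ (E1.image Fin.init).card * (S.card : ℝ) := by exact_mod_cast h2
      refine h3.trans ?_
      rcases Nat.eq_zero_or_pos k with hk0 | hk0
      · subst hk0
        simp only [Nat.cast_zero, zero_mul] at h1 ⊢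
        exact mul_nonpos_of_nonpos_of_nonneg h1 (Nat.cast_nonneg _)
      · have h4 : (S.card : ℝ) ^ k = (S.card : ℝ) ^ (k - 1) * S.card := by
          rw [← pow_succ]
          congr 1
          omega
        rw [h4, ← mul_assoc]
        exact mul_le_mul_of_nonneg_right h1 (Nat.cast_nonneg _)
    have c2 : (E2.card : ℝ) ≤ B * (S.card : ℝ) ^ k := by
      set U : Finset (Fin k → α) := E2.image Fin.init with hU
      have h1 : E2.card = ∑ u ∈ U, (E2.filter (fun p => Fin.init p = u)).card :=
        Finset.card_eq_sum_card_fiberwise (fun p hp => Finset.mem_coe.2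
          (Finset.mem_image_of_mem _ (Finset.mem_coe.1 hp)))
      have h2 : U.card ≤ S.card ^ k := by
        have : U ⊆ Fintype.piFinset (fun _ : Fin k => S) := by
          intro u hu
          obtain ⟨p, hp, rfl⟩ := Finset.mem_image.1 hu
          rw [Fintype.mem_piFinset]
          rw [hE2, Finset.mem_filter] at hp
          exact fun i => (hE p hp.1).1 _
        refine (Finset.card_le_card this).trans (le_of_eq ?_)
        rw [Fintype.card_piFinset]
        simp
      have h3 : ∀ u ∈ U, ((E2.filter (fun p => Fin.init p = u)).card : ℝ) ≤ B := by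
        intro u hu
        obtain ⟨p0, hp0, hpu⟩ := Finset.mem_image.1 hu
        have hp0' := Finset.mem_filter.1 hp0
        have huS : ∀ i, u i ∈ S := by
          intro i
          rw [← hpu]
          exact (hE p0 hp0'.1).1 _
        have huG : G k u := by rw [← hpu]; exact hp0'.2
        set S' := (E2.filter (fun p => Fin.init p = u)).image (fun p => p (Fin.last k)) with hS'
        have h4 : (E2.filter (fun p => Fin.init p = u)).card = S'.card := by
          rw [hS', Finset.card_image_of_injOn]
          intro p hp q hq hpq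
          rw [Finset.mem_coe, Finset.mem_filter] at hp hq
          simp only at hpq
          rw [← Fin.snoc_init_self p, ← Fin.snoc_init_self q, hp.2, hq.2, hpq]
        rw [h4]
        refine hs k (by omega) u huS huG S' ?_ ?_
        · intro q hq
          obtain ⟨p, hp, rfl⟩ := Finset.mem_image.1 hq
          have hp1 := (Finset.mem_filter.1 (Finset.mem_filter.1 hp).1).1
          exact (hE p hp1).1 _
        · intro q hq
          obtain ⟨p, hp, rfl⟩ := Finset.mem_image.1 hq
          have hp1 := (Finset.mem_filter.1 (Finset.mem_filter.1 hp).1).1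
          have hp2 := (Finset.mem_filter.1 hp).2
          have h5 : (Fin.snoc u (p (Fin.last k)) : Fin (k + 1) → α) = p := by
            rw [← hp2]; exact Fin.snoc_init_self p
          rw [h5]
          exact (hE p hp1).2
      rw [h1]
      push_cast
      calc ∑ u ∈ U, ((E2.filter (fun p => Fin.init p = u)).card : ℝ) ≤ ∑ _u ∈ U, B :=
            Finset.sum_le_sum h3
        _ = U.card * B := by rw [Finset.sum_const, nsmul_eq_mul]
        _ ≤ (S.card : ℝ) ^ k * B := by
            refine mul_le_mul_of_nonneg_right ?_ hB
            exact_mod_cast h2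
        _ = B * (S.card : ℝ) ^ k := mul_comm _ _
    rw [hcard, Nat.add_sub_cancel]
    push_cast
    calc (E2.card : ℝ) + E1.card ≤ B * (S.card : ℝ) ^ k + k * B * (S.card : ℝ) ^ k :=
          add_le_add c2 c1
      _ = (k + 1) * B * (S.card : ℝ) ^ k := by ring

theorem snoc_option {k : ℕ} (v : Fin k → ℝ) (y : ℝ) :
    (fun o : Option (Fin k) => o.elim y v) ∘ finSuccEquivLast = (Fin.snoc v y : Fin (k + 1) → ℝ) := by
  funext i
  refine Fin.lastCases ?_ (fun j => ?_) i
  · simp [finSuccEquivLast_last]
  · simp [finSuccEquivLast_castSucc]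

/-- the step for algebraic independence -/
theorem alg_step {k K : ℕ} (hk : k < K) (v : Fin k → ℝ) (hv : AlgebraicIndependent ℚ v)
    (w : Fin K → ℝ) (hw : AlgebraicIndependent ℚ w) :
    ∃ W : Submodule ℚ ℝ, (∀ y, ¬ AlgebraicIndependent ℚ (Fin.snoc v y : Fin (k + 1) → ℝ) → y ∈ W) ∧
      ∃ i, w i ∉ W := by
  classical
  set A0 := Algebra.adjoin ℚ (Set.range v) with hA0
  let W : Submodule ℚ ℝ :=
    (Subalgebra.restrictScalars ℚ (Subalgebra.algebraicClosure A0 ℝ)).toSubmodule
  have hW : ∀ y, y ∈ W ↔ IsAlgebraic A0 y := fun y => Iff.rfl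
  refine ⟨W, fun y hy => ?_, ?_⟩
  · rw [hW]
    by_contra h
    apply hy
    rw [← snoc_option, algebraicIndependent_equiv finSuccEquivLast]
    exact (hv.option_iff_transcendental y).2 h
  · by_contra hall
    push Not at hall
    have h1 : Set.range w ⊆ (AlgebraicIndependent.matroid ℚ ℝ).closure (Set.range v) := by
      rw [AlgebraicIndependent.matroid_closure_eq]
      rintro _ ⟨i, rfl⟩
      exact hall i
    have h2 : (AlgebraicIndependent.matroid ℚ ℝ).Indep (Set.range w) := by
      rw [AlgebraicIndependent.matroid_indep_iff]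
      exact AlgebraicIndependent.coe_range hw
    have h3 := h2.encard_le_eRk_of_subset h1
    rw [Matroid.eRk_closure_eq] at h3
    have h4 := h3.trans (Matroid.eRk_le_encard _ _)
    have h5 : (Set.range w).encard = K := by
      rw [← Set.image_univ, hw.injective.encard_image, Set.encard_univ]
      simp
    have h6 : (Set.range v).encard ≤ k := by
      rw [← Set.image_univ]
      refine (Set.encard_image_le _ _).trans (le_of_eq ?_)
      rw [Set.encard_univ]
      simp
    rw [h5] at h4
    have h7 : (K : ℕ∞) ≤ k := h4.trans h6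
    have : K ≤ k := by exact_mod_cast h7
    omega

/-- the step for linear independence -/
theorem lin_step {k K : ℕ} (hk : k < K) (v : Fin k → ℝ) (hv : LinearIndependent ℚ v)
    (w : Fin K → ℝ) (hw : LinearIndependent ℚ w) :
    ∃ W : Submodule ℚ ℝ, (∀ y, ¬ LinearIndependent ℚ (Fin.snoc v y : Fin (k + 1) → ℝ) → y ∈ W) ∧
      ∃ i, w i ∉ W := by
  classical
  refine ⟨Submodule.span ℚ (Set.range v), fun y hy => ?_, ?_⟩
  · by_contra h
    exact hy (linearIndependent_finSnoc.2 ⟨hv, h⟩)
  · by_contra hall
    push Not at hall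
    have hfd : FiniteDimensional ℚ (Submodule.span ℚ (Set.range v)) :=
      FiniteDimensional.span_of_finite ℚ (Set.finite_range v)
    have h1 : LinearIndependent ℚ (fun i => (⟨w i, hall i⟩ : Submodule.span ℚ (Set.range v))) := by
      refine LinearIndependent.of_comp (Submodule.span ℚ (Set.range v)).subtype ?_
      exact hw
    have h2 := h1.fintype_card_le_finrank
    have h3 := finrank_range_le_card (R := ℚ) v
    rw [Fintype.card_fin] at h2 h3
    unfold Set.finrank at h3
    omega

end Pool.Agent.Run7.h566.CS
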